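import Mathlib

/-!
# Test-free PDL does not have the Craig interpolation property

We define the syntax and the Kripke semantics of (full) propositional dynamic logic, the
test-free fragment, vocabularies, validity and the Craig interpolation property of a fragment,
and prove that test-free PDL does not have the Craig interpolation property.

The valid implication is `φ → ψ` with

* `φ = ⟨a*⟩(q ∧ s) ∧ [a*](⟨a⟩s → (s ∧ p))`,
* `ψ = ([a*](q → r) ∧ [a*]((p ∧ ⟨a⟩r) → r)) → r`.

Every interpolant is equivalent to `⟨(p?;a)*⟩q`, which is not expressible without tests: on a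
directed cycle of large prime length, an iteration either has bounded length or is the universal
relation, so that a test-free formula is a condition on a window of bounded length.
-/

set_option autoImplicit false

namespace Pool.Agent.Results.MP_7a64d7_lc.TestFreeNoCIP

universe u

/- Formulas and programs of full PDL, by simultaneous induction. -/
mutual

/-- Formulas of PDL over the proposition letters `P` and the atomic programs `A`. -/
inductive Form (P A : Type) : Type
  | var : P → Form P A
  | bot : Form P A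
  | neg : Form P A → Form P A
  | and : Form P A → Form P A → Form P A
  | box : Prog P A → Form P A → Form P A

/-- Programs of PDL over the proposition letters `P` and the atomic programs `A`. -/
inductive Prog (P A : Type) : Type
  | atom : A → Prog P A
  | seq : Prog P A → Prog P A → Prog P A
  | alt : Prog P A → Prog P A → Prog P A
  | star : Prog P A → Prog P A
  | test : Form P A → Prog P A

end

variable {P A : Type}

/-- Implication, as an abbreviation. -/
def Form.imp (φ ψ : Form P A) : Form P A := .neg (.and φ (.neg ψ))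

/-- A Kripke model with set of states `W`: a relation for each atomic program and a valuation. -/
structure Model (P A : Type) (W : Type u) where
  /-- the relation of an atomic program -/
  rel : A → W → W → Prop
  /-- the valuation of the proposition letters -/
  val : P → W → Prop

mutual

/-- Truth of a formula at a state. -/
def Form.Sat {W : Type u} (M : Model P A W) : Form P A → W → Prop
  | .var x, w => M.val x w
  | .bot, _ => False
  | .neg φ, w => ¬ Form.Sat M φ w
  | .and φ ψ, w => Form.Sat M φ w ∧ Form.Sat M ψ w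
  | .box α φ, w => ∀ v, Prog.Run M α w v → Form.Sat M φ v

/-- The relation denoted by a program. -/
def Prog.Run {W : Type u} (M : Model P A W) : Prog P A → W → W → Prop
  | .atom a, w, v => M.rel a w v
  | .seq α β, w, v => ∃ x, Prog.Run M α w x ∧ Prog.Run M β x v
  | .alt α β, w, v => Prog.Run M α w v ∨ Prog.Run M β w v
  | .star α, w, v => Relation.ReflTransGen (fun x y => Prog.Run M α x y) w v
  | .test τ, w, v => w = v ∧ Form.Sat M τ w

end

mutual

/-- The formula contains no test. -/
def Form.TestFree : Form P A → Prop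
  | .var _ => True
  | .bot => True
  | .neg φ => Form.TestFree φ
  | .and φ ψ => Form.TestFree φ ∧ Form.TestFree ψ
  | .box α φ => Prog.TestFree α ∧ Form.TestFree φ

/-- The program contains no test. -/
def Prog.TestFree : Prog P A → Prop
  | .atom _ => True
  | .seq α β => Prog.TestFree α ∧ Prog.TestFree β
  | .alt α β => Prog.TestFree α ∧ Prog.TestFree β
  | .star α => Prog.TestFree α
  | .test _ => False

end

mutual

/-- The proposition letters that occur in a formula. -/
def Form.letters : Form P A → Set P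
  | .var x => {x}
  | .bot => ∅
  | .neg φ => Form.letters φ
  | .and φ ψ => Form.letters φ ∪ Form.letters ψ
  | .box α φ => Prog.letters α ∪ Form.letters φ

/-- The proposition letters that occur in a program. -/
def Prog.letters : Prog P A → Set P
  | .atom _ => ∅
  | .seq α β => Prog.letters α ∪ Prog.letters β
  | .alt α β => Prog.letters α ∪ Prog.letters β
  | .star α => Prog.letters α
  | .test τ => Form.letters τ

end

mutual

/-- The atomic programs that occur in a formula. -/
def Form.atoms : Form P A → Set A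
  | .var _ => ∅
  | .bot => ∅
  | .neg φ => Form.atoms φ
  | .and φ ψ => Form.atoms φ ∪ Form.atoms ψ
  | .box α φ => Prog.atoms α ∪ Form.atoms φ

/-- The atomic programs that occur in a program. -/
def Prog.atoms : Prog P A → Set A
  | .atom a => {a}
  | .seq α β => Prog.atoms α ∪ Prog.atoms β
  | .alt α β => Prog.atoms α ∪ Prog.atoms β
  | .star α => Prog.atoms α
  | .test τ => Form.atoms τ

end

/-- A formula is valid if it is true at every state of every Kripke model. -/
def Valid (φ : Form P A) : Prop :=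
  ∀ (W : Type u) (M : Model P A W) (w : W), Form.Sat M φ w

/-- The Craig interpolation property of a fragment `L` of PDL. -/
def HasCIP (L : Set (Form P A)) : Prop :=
  ∀ φ ∈ L, ∀ ψ ∈ L, Valid.{u} (φ.imp ψ) →
    ∃ θ ∈ L, θ.letters ⊆ φ.letters ∩ ψ.letters ∧ θ.atoms ⊆ φ.atoms ∩ ψ.atoms ∧
      Valid.{u} (φ.imp θ) ∧ Valid.{u} (θ.imp ψ)

/-! ### Auxiliary material -/

theorem sat_imp {W : Type u} (M : Model P A W) (φ ψ : Form P A) (w : W) :
    (φ.imp ψ).Sat M w ↔ (φ.Sat M w → ψ.Sat M w) := by
  simp only [Form.imp, Form.Sat]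
  tauto

/-- Diamond. -/
def dia (α : Prog P A) (φ : Form P A) : Form P A := .neg (.box α (.neg φ))

theorem sat_dia {W : Type u} (M : Model P A W) (α : Prog P A) (φ : Form P A) (w : W) :
    (dia α φ).Sat M w ↔ ∃ v, α.Run M w v ∧ φ.Sat M v := by
  simp only [dia, Form.Sat]
  push Not
  rfl

/-- `φ = ⟨a*⟩(q ∧ s) ∧ [a*](⟨a⟩s → (s ∧ p))`. -/
def phi (a : A) (p q s : P) : Form P A :=
  .and (dia (.star (.atom a)) (.and (.var q) (.var s)))
    (.box (.star (.atom a)) (Form.imp (dia (.atom a) (.var s)) (.and (.var s) (.var p))))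

/-- `ψ = ([a*](q → r) ∧ [a*]((p ∧ ⟨a⟩r) → r)) → r`. -/
def psi (a : A) (p q r : P) : Form P A :=
  Form.imp
    (.and (.box (.star (.atom a)) (Form.imp (.var q) (.var r)))
      (.box (.star (.atom a)) (Form.imp (.and (.var p) (dia (.atom a) (.var r))) (.var r))))
    (.var r)

theorem phi_testFree (a : A) (p q s : P) : (phi a p q s).TestFree := by
  simp [phi, dia, Form.imp, Form.TestFree, Prog.TestFree]

theorem psi_testFree (a : A) (p q s : P) : (psi a p q s).TestFree := by
  simp [psi, dia, Form.imp, Form.TestFree, Prog.TestFree]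

theorem phi_letters (a : A) (p q s : P) : (phi a p q s).letters = {p, q, s} := by
  ext x
  simp [phi, dia, Form.imp, Form.letters, Prog.letters]
  tauto

theorem psi_letters (a : A) (p q r : P) : (psi a p q r).letters = {p, q, r} := by
  ext x
  simp [psi, dia, Form.imp, Form.letters, Prog.letters]
  tauto

theorem valid_phi_psi (a : A) (p q r s : P) :
    Valid.{u} ((phi a p q s).imp (psi a p q r)) := by
  intro W M w
  rw [sat_imp]
  intro h
  simp only [phi, psi, sat_imp, sat_dia, Form.Sat, Prog.Run] at h ⊢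
  obtain ⟨⟨v, hwv, hq, hs⟩, h2⟩ := h
  rintro ⟨h3, h4⟩
  -- going backwards along the path
  have key : ∀ x, Relation.ReflTransGen (fun x y => M.rel a x y) w x →
      Relation.ReflTransGen (fun x y => M.rel a x y) x v → M.val s x ∧ M.val r x := by
    intro x hwx hxv
    induction hxv using Relation.ReflTransGen.head_induction_on with
    | refl => exact ⟨hs, h3 v hwv hq⟩
    | head hxy _ ih =>
      have h5 := ih (hwx.tail hxy)
      have h6 := h2 _ hwx ⟨_, hxy, h5.1⟩
      exact ⟨h6.1, h4 _ hwx ⟨h6.2, _, hxy, h5.2⟩⟩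
  exact (key w .refl hwv).2

/-! ### Inexpressibility on prime cycles -/

/-- The model on the directed cycle of length `L`. -/
def cyc (L : ℕ) (V : P → ZMod L → Prop) : Model P A (ULift.{u} (ZMod L)) where
  rel := fun _ x y => y.down = x.down + 1
  val := fun x w => V x w.down

/-- The model on the line. -/
def line (V : P → ℕ → Prop) : Model P A (ULift.{u} ℕ) where
  rel := fun _ x y => y.down = x.down + 1
  val := fun x w => V x w.down

/-- On long prime cycles a test-free program is either a finite set of shifts or the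
universal relation. -/
theorem run_cyc : ∀ α : Prog P A, α.TestFree →
    (∃ S : Finset ℕ, S.Nonempty ∧ ∀ (L : ℕ) (V : P → ZMod L → Prop) (x y : ULift.{u} (ZMod L)),
      α.Run (cyc L V) x y ↔ ∃ n ∈ S, y.down = x.down + (n : ZMod L)) ∨
    (∃ B : ℕ, ∀ L : ℕ, L.Prime → B < L → ∀ (V : P → ZMod L → Prop) (x y : ULift.{u} (ZMod L)),
      α.Run (cyc L V) x y)
  | .atom a, _ => by
    left
    refine ⟨{1}, by simp, fun L V x y => ?_⟩
    simp [Prog.Run, cyc]
  | .seq α β, h => by
    rcases run_cyc α h.1 with ⟨S, hS, h1⟩ | ⟨B, h1⟩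
    · rcases run_cyc β h.2 with ⟨T, hT, h2⟩ | ⟨C, h2⟩
      · left
        refine ⟨Finset.image₂ (· + ·) S T, hS.image₂ hT, fun L V x y => ?_⟩
        simp only [Prog.Run, Finset.mem_image₂]
        constructor
        · rintro ⟨z, hz1, hz2⟩
          obtain ⟨n, hn, hn'⟩ := (h1 L V x z).1 hz1
          obtain ⟨m, hm, hm'⟩ := (h2 L V z y).1 hz2
          exact ⟨n + m, ⟨n, hn, m, hm, rfl⟩, by rw [hm', hn']; push_cast; ring⟩
        · rintro ⟨_, ⟨n, hn, m, hm, rfl⟩, hy⟩
          refine ⟨⟨x.down + n⟩, (h1 L V _ _).2 ⟨n, hn, rfl⟩, (h2 L V _ _).2 ⟨m, hm, ?_⟩⟩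
          rw [hy]; push_cast; ring
      · right
        refine ⟨C, fun L hL hC V x y => ?_⟩
        obtain ⟨n, hn⟩ := hS
        exact ⟨⟨x.down + n⟩, (h1 L V _ _).2 ⟨n, hn, rfl⟩, h2 L hL hC V _ _⟩
    · right
      rcases run_cyc β h.2 with ⟨T, hT, h2⟩ | ⟨C, h2⟩
      · refine ⟨B, fun L hL hB V x y => ?_⟩
        obtain ⟨n, hn⟩ := hT
        exact ⟨⟨y.down - n⟩, h1 L hL hB V _ _, (h2 L V _ _).2 ⟨n, hn, by simp⟩⟩
      · refine ⟨max B C, fun L hL hB V x y => ?_⟩
        exact ⟨x, h1 L hL (lt_of_le_of_lt (le_max_left _ _) hB) V _ _,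
          h2 L hL (lt_of_le_of_lt (le_max_right _ _) hB) V _ _⟩
  | .alt α β, h => by
    rcases run_cyc α h.1 with ⟨S, hS, h1⟩ | ⟨B, h1⟩
    · rcases run_cyc β h.2 with ⟨T, hT, h2⟩ | ⟨C, h2⟩
      · left
        refine ⟨S ∪ T, hS.mono Finset.subset_union_left, fun L V x y => ?_⟩
        simp only [Prog.Run, h1, h2, Finset.mem_union]
        constructor
        · rintro (⟨n, hn, h⟩ | ⟨n, hn, h⟩)
          · exact ⟨n, Or.inl hn, h⟩
          · exact ⟨n, Or.inr hn, h⟩
        · rintro ⟨n, hn | hn, h⟩
          · exact Or.inl ⟨n, hn, h⟩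
          · exact Or.inr ⟨n, hn, h⟩
      · right
        exact ⟨C, fun L hL hC V x y => Or.inr (h2 L hL hC V x y)⟩
    · right
      exact ⟨B, fun L hL hB V x y => Or.inl (h1 L hL hB V x y)⟩
  | .star α, h => by
    rcases run_cyc α h with ⟨S, hS, h1⟩ | ⟨B, h1⟩
    · by_cases hpos : ∃ n ∈ S, n ≠ 0
      · right
        obtain ⟨n, hn, hn0⟩ := hpos
        refine ⟨n, fun L hL hB V x y => ?_⟩
        have : Fact L.Prime := ⟨hL⟩
        have step : ∀ k : ℕ, Relation.ReflTransGen (fun x y => α.Run (cyc L V) x y) x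
            ⟨x.down + (k : ZMod L) * n⟩ := by
          intro k
          induction k with
          | zero =>
            have : (⟨x.down + ((0 : ℕ) : ZMod L) * n⟩ : ULift.{u} (ZMod L)) = x := by
              apply ULift.ext; simp
            rw [this]
          | succ k ih =>
            refine ih.tail ((h1 L V _ _).2 ⟨n, hn, ?_⟩)
            push_cast; ring
        have hne : (n : ZMod L) ≠ 0 := by
          intro h0
          rw [ZMod.natCast_eq_zero_iff] at h0
          exact absurd (Nat.le_of_dvd (Nat.pos_of_ne_zero hn0) h0) (by omega)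
        have := step ((y.down - x.down) * (n : ZMod L)⁻¹).val
        rw [ZMod.natCast_zmod_val] at this
        have e : (⟨x.down + (y.down - x.down) * (n : ZMod L)⁻¹ * n⟩ : ULift.{u} (ZMod L)) = y := by
          apply ULift.ext
          simp only
          rw [mul_assoc, inv_mul_cancel₀ hne]; ring
        rw [e] at this
        exact this
      · left
        push Not at hpos
        refine ⟨{0}, by simp, fun L V x y => ?_⟩
        simp only [Finset.mem_singleton, exists_eq_left, Nat.cast_zero, add_zero]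
        constructor
        · intro hxy
          change Relation.ReflTransGen _ _ _ at hxy
          induction hxy with
          | refl => rfl
          | tail _ h3 ih =>
            obtain ⟨n, hn, h4⟩ := (h1 L V _ _).1 h3
            rw [hpos n hn] at h4
            rw [h4, ih]; simp
        · intro hxy
          have : y = x := ULift.ext _ _ hxy
          subst this
          exact Relation.ReflTransGen.refl
    · right
      exact ⟨B, fun L hL hB V x y => Relation.ReflTransGen.single (h1 L hL hB V x y)⟩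
  | .test τ, h => (h : False).elim

/-- On long prime cycles the truth of a test-free formula at a state depends only on a window of
bounded length. -/
theorem sat_cyc_window : ∀ θ : Form P A, θ.TestFree →
    ∃ B d : ℕ, ∀ L : ℕ, L.Prime → B < L → ∀ (V : P → ZMod L → Prop) (i j : ZMod L),
      (∀ x, ∀ n ≤ d, V x (i + (n : ZMod L)) ↔ V x (j + (n : ZMod L))) →
      (θ.Sat (cyc.{u} L V) ⟨i⟩ ↔ θ.Sat (cyc.{u} L V) ⟨j⟩)
  | .var x, _ => by
    refine ⟨0, 0, fun L _ _ V i j h => ?_⟩
    have := h x 0 le_rfl
    simpa [Form.Sat, cyc] using this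
  | .bot, _ => ⟨0, 0, fun L _ _ V i j h => Iff.rfl⟩
  | .neg φ, h => by
    obtain ⟨B, d, h1⟩ := sat_cyc_window φ h
    exact ⟨B, d, fun L hL hB V i j h => not_congr (h1 L hL hB V i j h)⟩
  | .and φ ψ, h => by
    obtain ⟨B, d, h1⟩ := sat_cyc_window φ h.1
    obtain ⟨C, e, h2⟩ := sat_cyc_window ψ h.2
    refine ⟨max B C, max d e, fun L hL hB V i j h => and_congr ?_ ?_⟩
    · exact h1 L hL (lt_of_le_of_lt (le_max_left _ _) hB) V i j
        (fun x n hn => h x n (hn.trans (le_max_left _ _)))
    · exact h2 L hL (lt_of_le_of_lt (le_max_right _ _) hB) V i j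
        (fun x n hn => h x n (hn.trans (le_max_right _ _)))
  | .box α φ, h => by
    obtain ⟨B, d, h1⟩ := sat_cyc_window φ h.2
    rcases run_cyc.{u} α h.1 with ⟨S, hS, h2⟩ | ⟨C, h2⟩
    · refine ⟨B, S.sup id + d, fun L hL hB V i j h => ?_⟩
      have key : ∀ n ∈ S, (φ.Sat (cyc.{u} L V) ⟨i + n⟩ ↔ φ.Sat (cyc.{u} L V) ⟨j + n⟩) := by
        intro n hn
        apply h1 L hL hB V
        intro x m hm
        have hn' : n ≤ S.sup id := Finset.le_sup (f := id) hn
        have := h x (n + m) (by omega)
        push_cast at this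
        rwa [← add_assoc, ← add_assoc] at this
      simp only [Form.Sat, h2]
      constructor
      · rintro h3 ⟨v⟩ ⟨n, hn, rfl⟩
        exact (key n hn).1 (h3 _ ⟨n, hn, rfl⟩)
      · rintro h3 ⟨v⟩ ⟨n, hn, rfl⟩
        exact (key n hn).2 (h3 _ ⟨n, hn, rfl⟩)
    · refine ⟨C, 0, fun L hL hB V i j h => ?_⟩
      simp only [Form.Sat]
      exact ⟨fun h3 v _ => h3 v (h2 L hL hB V _ _), fun h3 v _ => h3 v (h2 L hL hB V _ _)⟩

/-! ### Invariance under bounded morphisms -/

section Morphism

variable {W : Type u} {W' : Type u} (M' : Model P A W') (M : Model P A W) (f : W' → W)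

theorem run_forth (hf : ∀ a w v, M'.rel a w v → M.rel a (f w) (f v)) :
    ∀ α : Prog P A, α.TestFree → ∀ w v, α.Run M' w v → α.Run M (f w) (f v)
  | .atom a, _, w, v, h => hf a w v h
  | .seq α β, h, w, v, ⟨x, h1, h2⟩ =>
    ⟨f x, run_forth hf α h.1 w x h1, run_forth hf β h.2 x v h2⟩
  | .alt α β, h, w, v, h1 =>
    h1.imp (run_forth hf α h.1 w v) (run_forth hf β h.2 w v)
  | .star α, h, w, v, h1 => by
    have ih := run_forth hf α h
    change Relation.ReflTransGen (fun x y => α.Run M' x y) w v at h1
    change Relation.ReflTransGen (fun x y => α.Run M x y) (f w) (f v)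
    induction h1 with
    | refl => exact Relation.ReflTransGen.refl
    | tail _ h2 ih2 => exact ih2.tail (ih _ _ h2)
  | .test _, h, _, _, _ => (h : False).elim

theorem run_back (hb : ∀ a w v, M.rel a (f w) v → ∃ v', f v' = v ∧ M'.rel a w v') :
    ∀ α : Prog P A, α.TestFree → ∀ w v, α.Run M (f w) v → ∃ v', f v' = v ∧ α.Run M' w v'
  | .atom a, _, w, v, h => hb a w v h
  | .seq α β, h, w, v, ⟨x, h1, h2⟩ => by
    obtain ⟨x', rfl, h3⟩ := run_back hb α h.1 w x h1
    obtain ⟨v', rfl, h4⟩ := run_back hb β h.2 x' v h2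
    exact ⟨v', rfl, x', h3, h4⟩
  | .alt α β, h, w, v, h1 => by
    rcases h1 with h1 | h1
    · obtain ⟨v', h2, h3⟩ := run_back hb α h.1 w v h1
      exact ⟨v', h2, Or.inl h3⟩
    · obtain ⟨v', h2, h3⟩ := run_back hb β h.2 w v h1
      exact ⟨v', h2, Or.inr h3⟩
  | .star α, h, w, v, h1 => by
    have ih := run_back hb α h
    change Relation.ReflTransGen (fun x y => α.Run M x y) (f w) v at h1
    induction h1 with
    | refl => exact ⟨w, rfl, Relation.ReflTransGen.refl⟩
    | tail _ h2 ih2 =>
      obtain ⟨x', rfl, h3⟩ := ih2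
      obtain ⟨v', rfl, h4⟩ := ih x' _ h2
      exact ⟨v', rfl, Relation.ReflTransGen.tail h3 h4⟩
  | .test _, h, _, _, _ => (h : False).elim

theorem sat_morphism (X : Set P) (hv : ∀ x ∈ X, ∀ w, M'.val x w ↔ M.val x (f w))
    (hf : ∀ a w v, M'.rel a w v → M.rel a (f w) (f v))
    (hb : ∀ a w v, M.rel a (f w) v → ∃ v', f v' = v ∧ M'.rel a w v') :
    ∀ θ : Form P A, θ.TestFree → θ.letters ⊆ X → ∀ w, θ.Sat M' w ↔ θ.Sat M (f w)
  | .var x, _, hX, w => hv x (hX rfl) w
  | .bot, _, _, _ => Iff.rfl
  | .neg φ, h, hX, w => not_congr (sat_morphism X hv hf hb φ h hX w)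
  | .and φ ψ, h, hX, w =>
    and_congr (sat_morphism X hv hf hb φ h.1 (fun _ hx => hX (Or.inl hx)) w)
      (sat_morphism X hv hf hb ψ h.2 (fun _ hx => hX (Or.inr hx)) w)
  | .box α φ, h, hX, w => by
    have ih := sat_morphism X hv hf hb φ h.2 (fun _ hx => hX (Or.inr hx))
    simp only [Form.Sat]
    constructor
    · intro h1 v h2
      obtain ⟨v', rfl, h3⟩ := run_back M' M f hb α h.1 w v h2
      exact (ih v').1 (h1 v' h3)
    · intro h1 v h2
      exact (ih v).2 (h1 _ (run_forth M' M f hf α h.1 w v h2))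

end Morphism

/-! ### The main result -/

/-- The until predicate on the cycle. -/
def Until {L : ℕ} (p q : ZMod L → Prop) (z : ZMod L) : Prop :=
  ∃ k : ℕ, (∀ l < k, p (z + (l : ZMod L))) ∧ q (z + (k : ZMod L))

/-- **Test-free PDL does not have the Craig interpolation property.** -/
theorem result (P A : Type) [Infinite P] [Nonempty A] :
    ¬ HasCIP.{u} {φ : Form P A | φ.TestFree} := by
  intro hcip
  obtain ⟨a⟩ := ‹Nonempty A›
  -- four distinct letters
  obtain ⟨e⟩ : Nonempty (ℕ ↪ P) := ⟨Infinite.natEmbedding P⟩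
  set p := e 0 with hp
  set q := e 1 with hq
  set r := e 2 with hr
  set s := e 3 with hs
  have hpq : p ≠ q := fun h => absurd (e.injective h) (by norm_num)
  have hpr : p ≠ r := fun h => absurd (e.injective h) (by norm_num)
  have hps : p ≠ s := fun h => absurd (e.injective h) (by norm_num)
  have hqr : q ≠ r := fun h => absurd (e.injective h) (by norm_num)
  have hqs : q ≠ s := fun h => absurd (e.injective h) (by norm_num)
  have hrs : r ≠ s := fun h => absurd (e.injective h) (by norm_num)
  clear_value p q r s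
  obtain ⟨θ, hθ, hlet, -, hv1, hv2⟩ := hcip (phi a p q s) (phi_testFree a p q s) (psi a p q r)
    (psi_testFree a p q r) (valid_phi_psi a p q r s)
  rw [phi_letters, psi_letters] at hlet
  have hlet' : θ.letters ⊆ {p, q} := by
    intro x hx
    have h1 := hlet hx
    simp only [Set.mem_inter_iff, Set.mem_insert_iff, Set.mem_singleton_iff] at h1 ⊢
    rcases h1 with ⟨h1 | h1 | h1, h2 | h2 | h2⟩
    · exact Or.inl h1
    · exact Or.inl h1
    · exact Or.inl h1
    · exact Or.inr h1
    · exact Or.inr h1
    · exact Or.inr h1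
    · exact Or.inl h2
    · exact Or.inr h2
    · exact absurd (h2.symm.trans h1) hrs
  obtain ⟨B, d, hwin⟩ := sat_cyc_window.{u} θ hθ
  obtain ⟨L, hLge, hL⟩ := Nat.exists_infinite_primes (B + 2 * d + 10)
  have hBL : B < L := by omega
  have : Fact L.Prime := ⟨hL⟩
  have hval : ∀ n : ℕ, n < 2 * d + 10 → ((n : ZMod L)).val = n := fun n hn =>
    ZMod.val_natCast_of_lt (by omega)
  -- the valuation
  classical
  let Vp : ZMod L → Prop := fun z => z.val ≤ 2 * d + 2 ∧ z.val ≠ d + 1
  let Vq : ZMod L → Prop := fun z => z.val = d + 1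
  let V : P → ZMod L → Prop := fun x z =>
    if x = p then Vp z else if x = q then Vq z else False
  have hVp : ∀ z, V p z ↔ Vp z := fun z => by simp [V]
  have hVq : ∀ z, V q z ↔ Vq z := fun z => by simp [V, hpq.symm]
  -- step 1 : `θ` holds at `0`
  have h0 : θ.Sat (cyc.{u} L V) ⟨0⟩ := by
    let U : P → ℕ → Prop := fun x n => if x = s then n ≤ d + 1 else V x (n : ZMod L)
    have hphi : (phi a p q s).Sat (line.{u} U) ⟨0⟩ := by
      have reach : ∀ n : ℕ, Relation.ReflTransGen
          (fun x y : ULift.{u} ℕ => (line (A := A) U).rel a x y) ⟨0⟩ ⟨n⟩ := by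
        intro n
        induction n with
        | zero => exact .refl
        | succ n ih => exact ih.tail rfl
      simp only [phi, sat_imp, sat_dia, Form.Sat, Prog.Run]
      refine ⟨⟨⟨d + 1⟩, reach _, ?_, ?_⟩, ?_⟩
      · simp only [line, U, if_neg hqs]
        rw [hVq]
        exact hval (d + 1) (by omega)
      · simp [line, U]
      · rintro ⟨n⟩ _ ⟨⟨m⟩, hm, hm'⟩
        simp only [line, U, if_true, if_neg hps] at hm hm' ⊢
        subst hm
        refine ⟨by omega, ?_⟩
        rw [hVp]
        have : (n : ZMod L).val = n := hval n (by omega)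
        exact ⟨by omega, by omega⟩
    have hline : θ.Sat (line.{u} U) ⟨0⟩ := (sat_imp _ _ _ _).1 (hv1 _ _ _) hphi
    have := (sat_morphism (line.{u} U) (cyc.{u} L V) (fun n => ⟨(n.down : ZMod L)⟩) {p, q}
      ?_ ?_ ?_ θ hθ hlet' ⟨0⟩).1 hline
    · simpa using this
    · rintro x hx ⟨n⟩
      have hxs : x ≠ s := by
        rcases hx with rfl | hx
        · exact hps
        · rw [Set.mem_singleton_iff] at hx
          rw [hx]; exact hqs
      simp only [line, cyc, U, if_neg hxs]
    · rintro b ⟨n⟩ ⟨m⟩ h
      simp only [line, cyc] at h ⊢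
      rw [h]; push_cast; rfl
    · rintro b ⟨n⟩ ⟨z⟩ h
      simp only [line, cyc] at h ⊢
      refine ⟨⟨n + 1⟩, ?_, rfl⟩
      rw [h]; push_cast; rfl
  -- step 2 : `θ` holds at `d + 2`
  have h1 : θ.Sat (cyc.{u} L V) ⟨((d + 2 : ℕ) : ZMod L)⟩ := by
    refine (hwin L hL hBL V 0 ((d + 2 : ℕ) : ZMod L) ?_).1 h0
    intro x n hn
    have e1 : (0 + (n : ZMod L)).val = n := by rw [zero_add]; exact hval n (by omega)
    have e2 : (((d + 2 : ℕ) : ZMod L) + (n : ZMod L)).val = d + 2 + n := by
      rw [← Nat.cast_add]; exact hval _ (by omega)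
    simp only [V, Vp, Vq, e1, e2]
    split_ifs
    · constructor
      · intro _; exact ⟨by omega, by omega⟩
      · intro _; exact ⟨by omega, by omega⟩
    · constructor
      · intro h; omega
      · intro h; omega
    · rfl
  -- step 3 : `θ` fails at `d + 2`
  let V2 : P → ZMod L → Prop := fun x z => if x = r then Until Vp Vq z else V x z
  have h2 : θ.Sat (cyc.{u} L V2) ⟨((d + 2 : ℕ) : ZMod L)⟩ := by
    refine (sat_morphism (cyc.{u} L V) (cyc.{u} L V2) id {p, q}
      ?_ ?_ ?_ θ hθ hlet' _).1 h1
    · rintro x hx ⟨n⟩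
      have hxr : x ≠ r := by
        rcases hx with rfl | hx
        · exact hpr
        · rw [Set.mem_singleton_iff] at hx
          rw [hx]; exact hqr
      simp only [cyc, V2, if_neg hxr, id]
    · intro b w v h
      exact h
    · intro b w v h
      exact ⟨v, rfl, h⟩
  have h3 : (psi a p q r).Sat (cyc.{u} L V2) ⟨((d + 2 : ℕ) : ZMod L)⟩ :=
    (sat_imp _ _ _ _).1 (hv2 _ _ _) h2
  simp only [psi, sat_imp, sat_dia, Form.Sat, Prog.Run] at h3
  have h4 := h3 ⟨?_, ?_⟩
  · simp only [cyc, V2, if_true] at h4
    obtain ⟨k, hk1, hk2⟩ := h4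
    rcases Nat.lt_or_ge (d + 1) k with hk | hk
    · have h5 := hk1 (d + 1) hk
      have e2 : (((d + 2 : ℕ) : ZMod L) + ((d + 1 : ℕ) : ZMod L)).val = d + 2 + (d + 1) := by
        rw [← Nat.cast_add]; exact hval _ (by omega)
      simp only [Vp, e2] at h5
      omega
    · have e2 : (((d + 2 : ℕ) : ZMod L) + (k : ZMod L)).val = d + 2 + k := by
        rw [← Nat.cast_add]; exact hval _ (by omega)
      simp only [Vq, e2] at hk2
      omega
  · rintro ⟨z⟩ _ hz
    simp only [cyc, V2, if_true, if_neg hqr] at hz ⊢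
    rw [hVq] at hz
    exact ⟨0, fun l hl => absurd hl (by omega), by simpa using hz⟩
  · rintro ⟨z⟩ _ ⟨hz, ⟨y⟩, hy, hz2⟩
    simp only [cyc, V2, if_true, if_neg hpr] at hy hz hz2 ⊢
    rw [hVp] at hz
    subst hy
    obtain ⟨k, hk1, hk2⟩ := hz2
    refine ⟨k + 1, ?_, ?_⟩
    · intro l hl
      rcases l with _ | l
      · simpa using hz
      · have := hk1 l (by omega)
        have e : z + ((l + 1 : ℕ) : ZMod L) = z + 1 + (l : ZMod L) := by push_cast; ring
        rw [e]; exact this
    · have e : z + ((k + 1 : ℕ) : ZMod L) = z + 1 + (k : ZMod L) := by push_cast; ring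
      rw [e]; exact hk2

end Pool.Agent.Results.MP_7a64d7_lc.TestFreeNoCIP
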